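import Pool.Agent.H86.RT.Near

set_option autoImplicit false

/-!
# Frankl's inequality for all but finitely many lattices of bounded length

Compactness argument with sequences modulo an ultrafilter.
-/

namespace Pool.Agent.H86.RT.Bdd

open Filter

universe u

section

variable (L : ℕ → Type u) [∀ t, Lattice (L t)]
variable (U : Ultrafilter ℕ)

/-- `z ≤ z'` for almost all `t`. -/
def Le (z z' : ∀ t, L t) : Prop := ∀ᶠ t in (U : Filter ℕ), z t ≤ z' t

variable {L U}

lemma Le.refl (z : ∀ t, L t) : Le L U z z := Eventually.of_forall fun _ => le_rfl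

lemma Le.trans {a b c : ∀ t, L t} (h1 : Le L U a b) (h2 : Le L U b c) : Le L U a c := by
  filter_upwards [h1, h2] with t h1 h2 using h1.trans h2

lemma not_Le {a b : ∀ t, L t} : ¬ Le L U a b ↔ ∀ᶠ t in (U : Filter ℕ), ¬ a t ≤ b t := by
  unfold Le
  rw [← Ultrafilter.eventually_not]

/-- Strict inequality for almost all `t`. -/
def Lt (L : ℕ → Type u) [∀ t, Lattice (L t)] (U : Ultrafilter ℕ) (z z' : ∀ t, L t) : Prop :=
  ∀ᶠ t in (U : Filter ℕ), z t < z' t

lemma Lt_of {a b : ∀ t, L t} (h1 : Le L U a b) (h2 : ¬ Le L U b a) : Lt L U a b := by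
  rw [not_Le] at h2
  unfold Lt
  filter_upwards [h1, h2] with t h1 h2 using lt_of_le_not_ge h1 h2

/-- No strict chains of `n + 2` sequences. -/
lemma no_chain {n : ℕ} (hch : ∀ t, ∀ c : Fin (n + 2) → L t, ¬ StrictMono c)
    (c : ℕ → ∀ t, L t) (h : ∀ k, k < n + 1 → Lt L U (c k) (c (k + 1))) : False := by
  have h1 : ∀ᶠ t in (U : Filter ℕ), ∀ k ∈ Finset.range (n + 1), c k t < c (k + 1) t := by
    rw [Filter.eventually_all_finset]
    intro k hk
    exact h k (Finset.mem_range.1 hk)
  obtain ⟨t, ht⟩ := h1.exists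
  refine hch t (fun i => c i t) ?_
  rw [Fin.strictMono_iff_lt_succ]
  intro i
  have := ht i (Finset.mem_range.2 i.2)
  simpa using this

instance : IsStrictOrder (∀ t, L t) (Lt L U) where
  irrefl a h := by
    obtain ⟨t, ht⟩ := Filter.Eventually.exists h
    exact lt_irrefl _ ht
  trans a b c h1 h2 := by
    unfold Lt at *
    filter_upwards [h1, h2] with t h1 h2 using h1.trans h2

lemma wf_Lt {n : ℕ} (hch : ∀ t, ∀ c : Fin (n + 2) → L t, ¬ StrictMono c) :
    WellFounded (Lt L U) := by
  rw [RelEmbedding.wellFounded_iff_isEmpty]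
  refine ⟨fun f => ?_⟩
  refine no_chain (U := U) hch (fun k => f (n + 1 - k)) ?_
  intro k hk
  have h1 : n + 1 - k = (n + 1 - (k + 1)) + 1 := by omega
  rw [h1]
  exact f.map_rel_iff.2 (Nat.lt_succ_self _)

/-- `z` is nearly frequent: the limit frequency is at least one half. -/
def Zm (L : ℕ → Type u) [∀ t, Lattice (L t)] (U : Ultrafilter ℕ) (z : ∀ t, L t) : Prop :=
  ∀ ε : ℝ, 0 < ε → ∀ᶠ t in (U : Filter ℕ),
    (1 / 2 - ε) * (Nat.card (L t) : ℝ) ≤ (Nat.card {x : L t // z t ≤ x} : ℝ)

/-- Finitely many nearly frequent elements below `w` dominate all of them. -/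
def Fn (L : ℕ → Type u) [∀ t, Lattice (L t)] (U : Ultrafilter ℕ) (w : ∀ t, L t) : Prop :=
  ∃ F : List (∀ t, L t), (∀ f ∈ F, Zm L U f ∧ Le L U f w) ∧
    ∀ z, Zm L U z → Le L U z w → ∃ f ∈ F, Le L U z f

/-- The join of a list of sequences, above `b`. -/
def jn (b : ∀ t, L t) (l : List (∀ t, L t)) : ∀ t, L t := fun t => l.foldr (fun a c => a t ⊔ c) (b t)

lemma jn_nil (b : ∀ t, L t) : jn b [] = b := rfl

lemma jn_cons (b a : ∀ t, L t) (l : List (∀ t, L t)) :
    jn b (a :: l) = fun t => a t ⊔ jn b l t := rfl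

lemma jn_le {b : ∀ t, L t} {l : List (∀ t, L t)} {t : ℕ} {x : L t} (hb : b t ≤ x)
    (h : ∀ a ∈ l, a t ≤ x) : jn b l t ≤ x := by
  induction l with
  | nil => exact hb
  | cons a l ih =>
    rw [jn_cons]
    exact sup_le (h a (by simp)) (ih fun c hc => h c (by simp [hc]))

lemma Le_jn {b w : ∀ t, L t} {l : List (∀ t, L t)} (hb : Le L U b w)
    (h : ∀ a ∈ l, Le L U a w) : Le L U (jn b l) w := by
  induction l with
  | nil => exact hb
  | cons a l ih =>
    have h1 := h a (by simp)
    have h2 := ih fun c hc => h c (by simp [hc])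
    filter_upwards [h1, h2] with t h1 h2
    rw [jn_cons]
    exact sup_le h1 h2

/-- The lists of the construction. -/
inductive Good (L : ℕ → Type u) [∀ t, Lattice (L t)] (U : Ultrafilter ℕ) (b w : ∀ t, L t) :
    List (∀ t, L t) → Prop
  | nil : Good L U b w []
  | cons {l : List (∀ t, L t)} {z : ∀ t, L t} (hl : Good L U b w l) (hz : Zm L U z)
      (hzw : Le L U z w)
      (h : ∀ A : List (∀ t, L t), A.Sublist l → ¬ Le L U w (jn b A) → ¬ Le L U z (jn b A)) :
      Good L U b w (z :: l)

lemma Good.zm {b w : ∀ t, L t} {l : List (∀ t, L t)} (h : Good L U b w l) :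
    ∀ z ∈ l, Zm L U z ∧ Le L U z w := by
  induction h with
  | nil => simp
  | cons hl hz hzw _ ih =>
    intro z' hz'
    rcases List.mem_cons.1 hz' with rfl | h'
    · exact ⟨hz, hzw⟩
    · exact ih z' h'

/-- Good lists of every length. -/
lemma exists_good {b w : ∀ t, L t} (hbw : Le L U b w) (hnf : ¬ Fn L U w)
    (hind : ∀ v, Lt L U v w → Fn L U v) : ∀ m : ℕ, ∃ l, Good L U b w l ∧ l.length = m := by
  classical
  intro m
  induction m with
  | zero => exact ⟨[], Good.nil, rfl⟩
  | succ m ih =>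
    obtain ⟨l, hl, hlen⟩ := ih
    -- the lists `F_A`
    have hA : ∀ A : List (∀ t, L t), A.Sublist l → ¬ Le L U w (jn b A) →
        ∃ F : List (∀ t, L t), (∀ f ∈ F, Zm L U f ∧ Le L U f w) ∧
          ∀ z, Zm L U z → Le L U z (jn b A) → ∃ f ∈ F, Le L U z f := by
      intro A hAl hAw
      have h1 : Le L U (jn b A) w := Le_jn hbw fun a ha => (hl.zm a (hAl.subset ha)).2
      obtain ⟨F, hF1, hF2⟩ := hind _ (Lt_of h1 hAw)
      exact ⟨F, fun f hf => ⟨(hF1 f hf).1, (hF1 f hf).2.trans h1⟩, hF2⟩
    have hA' : ∀ A : List (∀ t, L t), ∃ F : List (∀ t, L t), (∀ f ∈ F, Zm L U f ∧ Le L U f w) ∧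
        (A.Sublist l → ¬ Le L U w (jn b A) →
          ∀ z, Zm L U z → Le L U z (jn b A) → ∃ f ∈ F, Le L U z f) := by
      intro A
      by_cases h : A.Sublist l ∧ ¬ Le L U w (jn b A)
      · obtain ⟨F, h1, h2⟩ := hA A h.1 h.2
        exact ⟨F, h1, fun _ _ => h2⟩
      · exact ⟨[], by simp, fun h1 h2 => absurd ⟨h1, h2⟩ h⟩
    choose F hF1 hF2 using hA'
    by_contra hno
    apply hnf
    refine ⟨l.sublists.flatMap F, ?_, ?_⟩
    · intro f hf
      obtain ⟨A, _, hf'⟩ := List.mem_flatMap.1 hf
      exact hF1 A f hf'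
    · intro z hz hzw
      by_contra hz'
      apply hno
      refine ⟨z :: l, Good.cons hl hz hzw ?_, by simp [hlen]⟩
      intro A hAl hAw hzA
      obtain ⟨f, hf, hzf⟩ := hF2 A hAl hAw z hz hzA
      exact hz' ⟨f, List.mem_flatMap.2 ⟨A, List.mem_sublists.2 hAl, hf⟩, hzf⟩

/-- A sublist of a good list whose join is not above `w` gives a strict chain. -/
lemma Good.chain {b w : ∀ t, L t} {l : List (∀ t, L t)} (h : Good L U b w l) :
    ∀ A : List (∀ t, L t), A.Sublist l → ¬ Le L U w (jn b A) →
      ∃ c : ℕ → ∀ t, L t, (∀ k, k < A.length → Lt L U (c k) (c (k + 1))) ∧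
        c A.length = jn b A := by
  induction h with
  | nil =>
    intro A hA _
    rw [List.sublist_nil.1 hA]
    exact ⟨fun _ => b, by simp, rfl⟩
  | @cons l z hl hz hzw hgood ih =>
    intro A hA hAw
    rcases List.sublist_cons_iff.1 hA with h1 | ⟨A', rfl, h1⟩
    · exact ih A h1 hAw
    · have hle : Le L U (jn b A') (jn b (z :: A')) := by
        refine Eventually.of_forall fun t => ?_
        rw [jn_cons]
        exact le_sup_right
      have hA'w : ¬ Le L U w (jn b A') := fun h => hAw (h.trans hle)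
      obtain ⟨c, hc1, hc2⟩ := ih A' h1 hA'w
      have hlt : Lt L U (jn b A') (jn b (z :: A')) := by
        refine Lt_of hle fun h => ?_
        refine hgood A' h1 hA'w ?_
        refine Le.trans ?_ h
        refine Eventually.of_forall fun t => ?_
        rw [jn_cons]
        exact le_sup_left
      refine ⟨fun k => if k ≤ A'.length then c k else jn b (z :: A'), ?_, ?_⟩
      · intro k hk
        rw [List.length_cons] at hk
        rcases Nat.lt_or_ge k A'.length with h2 | h2
        · simp only [h2.le, Nat.succ_le_of_lt h2, if_true]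
          exact hc1 k h2
        · have hk' : k = A'.length := by omega
          subst hk'
          simp only [le_rfl, if_true, Nat.not_succ_le_self, if_false]
          rw [hc2]
          exact hlt
      · simp

/-- Counting: if every sublist of length `n` has a join above `w`, then the elements not above `w`
are above fewer than `n` members. -/
lemma count_bound [∀ t, Finite (L t)] {n : ℕ} {t : ℕ} {b w : ∀ t, L t} {l : List (∀ t, L t)} (hb : ∀ x : L t, b t ≤ x)
    (h : ∀ A : List (∀ t, L t), A.Sublist l → A.length = n → w t ≤ jn b A t) :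
    (l.map fun z => (Nat.card {x : L t // z t ≤ x} : ℝ)).sum ≤
      n * (Nat.card (L t) : ℝ) + l.length * (Nat.card {x : L t // w t ≤ x} : ℝ) := by
  classical
  have := Fintype.ofFinite (L t)
  have hconv : ∀ y : L t, (Nat.card {x : L t // y ≤ x} : ℝ) =
      ∑ x : L t, if y ≤ x then (1 : ℝ) else 0 := by
    intro y
    rw [Nat.card_eq_fintype_card, Fintype.card_subtype, Finset.sum_boole]
  have hsum : (l.map fun z => (Nat.card {x : L t // z t ≤ x} : ℝ)).sum =
      ∑ x : L t, ((l.filter fun z => z t ≤ x).length : ℝ) := by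
    clear h
    induction l with
    | nil => simp
    | cons z l ih =>
      rw [List.map_cons, List.sum_cons, ih, hconv, ← Finset.sum_add_distrib]
      refine Finset.sum_congr rfl fun x _ => ?_
      by_cases hx : z t ≤ x
      · simp [hx]; ring
      · simp [hx]
  rw [hsum, hconv, Nat.card_eq_fintype_card, Finset.mul_sum]
  have h1 : (n : ℝ) * (Fintype.card (L t) : ℝ) = ∑ _x : L t, (n : ℝ) := by
    rw [Finset.sum_const, Finset.card_univ, nsmul_eq_mul]; ring
  rw [h1, ← Finset.sum_add_distrib]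
  refine Finset.sum_le_sum fun x _ => ?_
  by_cases hx : w t ≤ x
  · simp only [hx, if_true, mul_one]
    have : ((l.filter fun z => z t ≤ x).length : ℝ) ≤ l.length := by
      exact_mod_cast List.length_filter_le _ _
    have hn : (0 : ℝ) ≤ n := Nat.cast_nonneg _
    linarith
  · simp only [hx, if_false, mul_zero, add_zero]
    by_contra hlt
    have hlt' : n ≤ (l.filter fun z => z t ≤ x).length := by
      have := not_le.1 hlt
      exact_mod_cast this.le
    refine hx ((h ((l.filter fun z => z t ≤ x).take n)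
      ((List.take_sublist _ _).trans List.filter_sublist)
      (by rw [List.length_take]; omega)).trans ?_)
    refine jn_le (hb x) fun a ha => ?_
    have := List.mem_of_mem_take ha
    rw [List.mem_filter] at this
    simpa using this.2

/-- **Finitely many maximal nearly frequent elements.** -/
lemma all_Fn [∀ t, Finite (L t)] {n : ℕ} (hch : ∀ t, ∀ c : Fin (n + 2) → L t, ¬ StrictMono c)
    (b : ∀ t, L t) (hb : ∀ t (x : L t), b t ≤ x)
    (w : ∀ t, L t) : Fn L U w := by
  classical
  induction w using (wf_Lt (L := L) (U := U) hch).induction with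
  | _ w ih =>
  by_cases hw : Zm L U w
  · exact ⟨[w], by simpa using ⟨hw, Le.refl w⟩, fun z _ hzw => ⟨w, by simp, hzw⟩⟩
  by_contra hnf
  apply hw
  intro ε hε
  -- choose `m` with `n / m ≤ ε / 2`
  obtain ⟨m, hm⟩ := exists_nat_gt (2 * (n : ℝ) / ε)
  have hbw : Le L U b w := Eventually.of_forall fun t => hb t _
  obtain ⟨l, hl, hlen⟩ := exists_good (m := m + 1) hbw hnf ih
  have hjoin : ∀ A : List (∀ t, L t), A.Sublist l → A.length = n → Le L U w (jn b A) := by
    intro A hA hAn
    by_contra hAw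
    obtain ⟨c, hc1, hc2⟩ := hl.chain A hA hAw
    have hlt : Lt L U (jn b A) w :=
      Lt_of (Le_jn hbw fun a ha => (hl.zm a (hA.subset ha)).2) hAw
    refine no_chain (U := U) hch (fun k => if k ≤ n then c k else w) ?_
    intro k hk
    rcases Nat.lt_or_ge k n with h2 | h2
    · simp only [h2.le, Nat.succ_le_of_lt h2, if_true]
      exact hc1 k (by omega)
    · have hk' : k = n := by omega
      subst hk'
      simp only [le_rfl, if_true, Nat.not_succ_le_self, if_false]
      rw [← hAn, hc2]
      exact hlt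
  have hev1 : ∀ᶠ t in (U : Filter ℕ), ∀ A ∈ l.sublists.toFinset, A.length = n →
      w t ≤ jn b A t := by
    rw [Filter.eventually_all_finset]
    intro A hA
    by_cases hAn : A.length = n
    · have := hjoin A (List.mem_sublists.1 (List.mem_toFinset.1 hA)) hAn
      filter_upwards [this] with t ht _ using ht
    · exact Eventually.of_forall fun t h => absurd h hAn
  have hev2 : ∀ᶠ t in (U : Filter ℕ), ∀ z ∈ l.toFinset,
      (1 / 2 - ε / 2) * (Nat.card (L t) : ℝ) ≤ (Nat.card {x : L t // z t ≤ x} : ℝ) := by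
    rw [Filter.eventually_all_finset]
    intro z hz
    exact (hl.zm z (List.mem_toFinset.1 hz)).1 (ε / 2) (by positivity)
  filter_upwards [hev1, hev2] with t h1 h2
  have hcount := count_bound (n := n) (t := t) (b := b) (w := w) (l := l) (hb t)
    (fun A hA hAn => h1 A (List.mem_toFinset.2 (List.mem_sublists.2 hA)) hAn)
  have hlow : (l.length : ℝ) * ((1 / 2 - ε / 2) * (Nat.card (L t) : ℝ)) ≤
      (l.map fun z => (Nat.card {x : L t // z t ≤ x} : ℝ)).sum := by
    have h3 : ∀ l' : List (∀ t, L t), (∀ z ∈ l', (1 / 2 - ε / 2) * (Nat.card (L t) : ℝ) ≤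
        (Nat.card {x : L t // z t ≤ x} : ℝ)) →
        (l'.length : ℝ) * ((1 / 2 - ε / 2) * (Nat.card (L t) : ℝ)) ≤
          (l'.map fun z => (Nat.card {x : L t // z t ≤ x} : ℝ)).sum := by
      intro l'
      induction l' with
      | nil => intro _; simp
      | cons z l' ih' =>
        intro hz
        rw [List.map_cons, List.sum_cons, List.length_cons]
        push_cast
        have h4 := ih' fun y hy => hz y (by simp [hy])
        have h5 := hz z (by simp)
        linarith
    exact h3 l fun z hz => h2 z (List.mem_toFinset.2 hz)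
  have hlen' : (l.length : ℝ) = m + 1 := by rw [hlen]; push_cast; ring
  rw [hlen'] at hlow hcount
  have hN : (0 : ℝ) ≤ (Nat.card (L t) : ℝ) := Nat.cast_nonneg _
  have hm0 : (0 : ℝ) < (m : ℝ) + 1 := by positivity
  have hmn : (n : ℝ) ≤ (m + 1) * (ε / 2) := by
    have h6 : 2 * (n : ℝ) < m * ε := by
      rw [div_lt_iff₀ hε] at hm
      exact hm
    nlinarith
  have h7 : (n : ℝ) * (Nat.card (L t) : ℝ) ≤ (m + 1) * (ε / 2) * (Nat.card (L t) : ℝ) :=
    mul_le_mul_of_nonneg_right hmn hN
  have h8 : ((m : ℝ) + 1) * ((1 / 2 - ε) * (Nat.card (L t) : ℝ)) ≤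
      ((m : ℝ) + 1) * (Nat.card {x : L t // w t ≤ x} : ℝ) := by
    nlinarith
  exact le_of_mul_le_mul_left h8 hm0

end

/-- **Main theorem.** For every `n` there is a `C` such that in every finite lattice of length at
most `n` with more than `C` elements some join-irreducible is below less than half of the
elements. -/
theorem bounded_length (n : ℕ) : ∃ C : ℕ, ∀ (L : Type u) [Lattice L] [Finite L],
    (∀ c : Fin (n + 2) → L, ¬ StrictMono c) → C < Nat.card L →
      ∃ j : L, SupIrred j ∧ 2 * Nat.card {x : L // j ≤ x} < Nat.card L := by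
  classical
  by_contra H
  push Not at H
  choose L instL instF hch hcard hj using H
  have hne : ∀ t, Nonempty (L t) := fun t => by
    have h1 : 0 < Nat.card (L t) := by have := hcard t; omega
    exact (Nat.card_pos_iff.1 h1).1
  let U : Ultrafilter ℕ := hyperfilter ℕ
  have hbot : ∀ t, ∃ b : L t, ∀ x, b ≤ x := fun t => by
    have := Fintype.ofFinite (L t)
    let _ : BoundedOrder (L t) := Fintype.toBoundedOrder (L t)
    exact ⟨⊥, fun x => bot_le⟩
  have htop : ∀ t, ∃ b : L t, ∀ x, x ≤ b := fun t => by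
    have := Fintype.ofFinite (L t)
    let _ : BoundedOrder (L t) := Fintype.toBoundedOrder (L t)
    exact ⟨⊤, fun x => le_top⟩
  choose b hb using hbot
  choose top htop using htop
  obtain ⟨F, hF1, hF2⟩ := all_Fn (L := L) (U := U) hch b hb top
  -- every join-irreducible is below a member of `F`, almost always
  have hJ : ∀ᶠ t in (U : Filter ℕ), ∀ a : L t, SupIrred a → ∃ f ∈ F, a ≤ f t := by
    by_contra hno
    rw [← Ultrafilter.eventually_not] at hno
    have hex : ∀ t, ∃ a : L t, (¬ (∀ a : L t, SupIrred a → ∃ f ∈ F, a ≤ f t)) →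
        SupIrred a ∧ ∀ f ∈ F, ¬ a ≤ f t := by
      intro t
      by_cases h : ∀ a : L t, SupIrred a → ∃ f ∈ F, a ≤ f t
      · exact ⟨b t, fun h' => absurd h h'⟩
      · have h' := h
        push Not at h'
        obtain ⟨a, ha1, ha2⟩ := h'
        exact ⟨a, fun _ => ⟨ha1, ha2⟩⟩
    choose a ha using hex
    have hZ : Zm L U a := by
      intro ε hε
      filter_upwards [hno] with t ht
      have h1 := hj t (a t) (ha t ht).1
      have h2 : (Nat.card (L t) : ℝ) ≤ 2 * (Nat.card {x : L t // a t ≤ x} : ℝ) := by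
        exact_mod_cast h1
      have hN : (0 : ℝ) ≤ (Nat.card (L t) : ℝ) := Nat.cast_nonneg _
      nlinarith
    obtain ⟨f, hf, haf⟩ := hF2 a hZ (Eventually.of_forall fun t => htop t _)
    obtain ⟨t, ht1, ht2⟩ := (hno.and haf).exists
    exact (ha t ht1).2 f hf ht2
  set r := F.length with hr
  set ε : ℝ := 1 / (4 * (2 * (r : ℝ) + 1)) with hε
  have hε0 : 0 < ε := by rw [hε]; positivity
  have hZ : ∀ᶠ t in (U : Filter ℕ), ∀ i ∈ (Finset.univ : Finset (Fin r)),
      (1 / 2 - ε) * (Nat.card (L t) : ℝ) ≤ (Nat.card {x : L t // F.get i t ≤ x} : ℝ) := by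
    rw [Filter.eventually_all_finset]
    intro i _
    exact (hF1 (F.get i) (List.get_mem F i)).1 ε hε0
  have hlarge : ∀ᶠ t in (U : Filter ℕ), 2 ^ (2 * (r * (2 * r + 1))) ≤ t := by
    have h1 : ∀ᶠ t in (Filter.cofinite : Filter ℕ), 2 ^ (2 * (r * (2 * r + 1))) ≤ t := by
      rw [Nat.cofinite_eq_atTop]
      exact eventually_ge_atTop _
    exact (hyperfilter_le_cofinite (α := ℕ)) h1
  obtain ⟨t, ⟨h1, h2⟩, h3⟩ := ((hJ.and hZ).and hlarge).exists
  have key := near_half (L := L t) r (fun i => F.get i t) (fun a ha => by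
    obtain ⟨f, hf, haf⟩ := h1 a ha
    obtain ⟨i, hi⟩ := List.get_of_mem hf
    exact ⟨i, by rw [hi]; exact haf⟩) (fun i => by
    have h4 := h2 i (Finset.mem_univ _)
    have h5 : (1 - 1 / (2 * (2 * (r : ℝ) + 1))) = 2 * (1 / 2 - ε) := by
      rw [hε]
      field_simp
      ring
    rw [h5]
    linarith)
  have h4 := hcard t
  omega

end Pool.Agent.H86.RT.Bdd
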