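import Mathlib

set_option autoImplicit false

/-!
# Entropy weights of a finite set, by slices

For a finite set `S` with coordinates `π m`, `m ∈ B`, which separate its points, there are weights
`w m ≥ 0` with total `log |S|` on `B`, and with total at most `log |S.image (restriction to A)|` on
every `A ⊆ B`.  (`w m` is the entropy of the coordinate `m` given the earlier ones, for a uniform
point of `S`; here it is defined by induction over slices.)
-/

namespace Pool.Agent.H86.RT

open Finset

variable {M Y Z : Type*} [Fintype M] [DecidableEq M] [DecidableEq Y] [DecidableEq Z]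

/-- The restriction of the coordinates to `A`. -/
def res (π : M → Z → Y) (A : Finset M) (x : Z) : M → Option Y :=
  fun m => if m ∈ A then some (π m x) else none

lemma jensen_log {ι : Type*} (s : Finset ι) (p q : ι → ℝ) (hp : ∀ i ∈ s, 0 < p i)
    (hq : ∀ i ∈ s, 0 < q i) (h1 : ∑ i ∈ s, p i = 1) :
    ∑ i ∈ s, p i * Real.log (q i / p i) ≤ Real.log (∑ i ∈ s, q i) := by
  have h := strictConcaveOn_log_Ioi.concaveOn.le_map_sum (t := s) (w := p)
    (p := fun i => q i / p i) (fun i hi => (hp i hi).le) h1
    (fun i hi => Set.mem_Ioi.2 (div_pos (hq i hi) (hp i hi)))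
  simp only [smul_eq_mul] at h
  refine h.trans (le_of_eq ?_)
  congr 1
  refine Finset.sum_congr rfl fun i hi => ?_
  have := (hp i hi).ne'
  field_simp

omit [DecidableEq Z] in
theorem exists_weights (π : M → Z → Y) (B : Finset M) :
    ∀ S : Finset Z, S.Nonempty →
      (∀ x ∈ S, ∀ y ∈ S, (∀ m ∈ B, π m x = π m y) → x = y) →
      ∃ w : M → ℝ, (∀ m, 0 ≤ w m) ∧ ∑ m ∈ B, w m = Real.log S.card ∧
        ∀ A ⊆ B, ∑ m ∈ A, w m ≤ Real.log (S.image (res π A)).card := by
  classical
  induction B using Finset.induction_on with
  | empty =>
    intro S hS hinj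
    have h1 : S.card = 1 := by
      obtain ⟨x, hx⟩ := hS
      exact Finset.card_eq_one.2 ⟨x, Finset.eq_singleton_iff_unique_mem.2
        ⟨hx, fun y hy => hinj y hy x hx (by simp)⟩⟩
    refine ⟨fun _ => 0, fun _ => le_rfl, by simp [h1], ?_⟩
    intro A hA
    rw [Finset.subset_empty.1 hA]
    simp only [Finset.sum_empty]
    exact Real.log_natCast_nonneg _
  | insert a B ha ih =>
    intro S hS hinj
    set T := S.image (π a) with hT
    let Sl : Y → Finset Z := fun y => S.filter fun x => π a x = y
    have hSlne : ∀ y ∈ T, (Sl y).Nonempty := by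
      intro y hy
      obtain ⟨x, hx, hxy⟩ := Finset.mem_image.1 hy
      exact ⟨x, Finset.mem_filter.2 ⟨hx, hxy⟩⟩
    have hex : ∀ y, y ∈ T → ∃ w : M → ℝ, (∀ m, 0 ≤ w m) ∧
        ∑ m ∈ B, w m = Real.log (Sl y).card ∧
        ∀ A ⊆ B, ∑ m ∈ A, w m ≤ Real.log ((Sl y).image (res π A)).card := by
      intro y hy
      refine ih (Sl y) (hSlne y hy) ?_
      intro x hx x' hx' h
      rw [Finset.mem_filter] at hx hx'
      refine hinj x hx.1 x' hx'.1 ?_
      intro m hm
      rcases Finset.mem_insert.1 hm with rfl | hm
      · rw [hx.2, hx'.2]
      · exact h m hm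
    choose! W hW0 hW1 hW2 using hex
    have hSpos : (0 : ℝ) < S.card := by exact_mod_cast hS.card_pos
    have hSlpos : ∀ y ∈ T, (0 : ℝ) < (Sl y).card := fun y hy => by
      exact_mod_cast (hSlne y hy).card_pos
    let p : Y → ℝ := fun y => (Sl y).card / S.card
    have hp : ∀ y ∈ T, 0 < p y := fun y hy => div_pos (hSlpos y hy) hSpos
    have hp1 : ∑ y ∈ T, p y = 1 := by
      have h : S.card = ∑ y ∈ T, (Sl y).card :=
        Finset.card_eq_sum_card_fiberwise fun x hx => Finset.mem_image_of_mem _ hx
      have h' : (S.card : ℝ) = ∑ y ∈ T, ((Sl y).card : ℝ) := by exact_mod_cast h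
      simp only [p]
      rw [← Finset.sum_div, ← h', div_self hSpos.ne']
    have hle : ∀ y ∈ T, Real.log (Sl y).card ≤ Real.log S.card := fun y hy =>
      Real.log_le_log (hSlpos y hy) (by exact_mod_cast Finset.card_filter_le _ _)
    refine ⟨fun m => if m = a then Real.log S.card - ∑ y ∈ T, p y * Real.log (Sl y).card
      else ∑ y ∈ T, p y * W y m, ?_, ?_, ?_⟩
    · intro m
      by_cases hm : m = a
      · simp only [hm, if_true]
        have h2 : ∑ y ∈ T, p y * Real.log (Sl y).card ≤ ∑ y ∈ T, p y * Real.log S.card :=
          Finset.sum_le_sum fun y hy => mul_le_mul_of_nonneg_left (hle y hy) (hp y hy).le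
        rw [← Finset.sum_mul, hp1, one_mul] at h2
        linarith
      · simp only [hm, if_false]
        exact Finset.sum_nonneg fun y hy => mul_nonneg (hp y hy).le (hW0 y hy m)
    · rw [Finset.sum_insert ha]
      have h3 : ∑ m ∈ B, (if m = a then Real.log S.card - ∑ y ∈ T, p y * Real.log (Sl y).card
          else ∑ y ∈ T, p y * W y m) = ∑ y ∈ T, p y * Real.log (Sl y).card := by
        rw [Finset.sum_congr rfl (fun m (hm : m ∈ B) => if_neg (fun h : m = a => ha (h ▸ hm)))]
        rw [Finset.sum_comm]
        refine Finset.sum_congr rfl fun y hy => ?_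
        rw [← Finset.mul_sum, hW1 y hy]
      rw [h3]
      simp
    · intro A hA
      have key : ∀ A' ⊆ B, ∑ m ∈ A', (if m = a then
          Real.log S.card - ∑ y ∈ T, p y * Real.log (Sl y).card else ∑ y ∈ T, p y * W y m) ≤
          ∑ y ∈ T, p y * Real.log ((Sl y).image (res π A')).card := by
        intro A' hA'
        rw [Finset.sum_congr rfl (fun m (hm : m ∈ A') => if_neg (fun h : m = a => ha (h ▸ hA' hm)))]
        rw [Finset.sum_comm]
        refine Finset.sum_le_sum fun y hy => ?_
        rw [← Finset.mul_sum]
        exact mul_le_mul_of_nonneg_left (hW2 y hy A' hA') (hp y hy).le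
      by_cases haA : a ∈ A
      · have hA' : A.erase a ⊆ B := fun m hm => by
          rcases Finset.mem_insert.1 (hA (Finset.mem_of_mem_erase hm)) with h | h
          · exact absurd h (Finset.ne_of_mem_erase hm)
          · exact h
        rw [← Finset.add_sum_erase A _ haA]
        simp only [if_true]
        refine (add_le_add_right (key _ hA') _).trans ?_
        let q : Y → ℝ := fun y => ((Sl y).image (res π (A.erase a))).card
        have hq : ∀ y ∈ T, 0 < q y := fun y hy => by
          simp only [q]
          exact_mod_cast ((hSlne y hy).image _).card_pos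
        have h4 : Real.log S.card - ∑ y ∈ T, p y * Real.log (Sl y).card +
            ∑ y ∈ T, p y * Real.log ((Sl y).image (res π (A.erase a))).card
            = ∑ y ∈ T, p y * Real.log (q y / p y) := by
          have h5 : ∀ y ∈ T, p y * Real.log (q y / p y) = p y * Real.log S.card -
              p y * Real.log (Sl y).card +
              p y * Real.log ((Sl y).image (res π (A.erase a))).card := by
            intro y hy
            rw [Real.log_div (hq y hy).ne' (hp y hy).ne']
            simp only [p, q]
            rw [Real.log_div (hSlpos y hy).ne' hSpos.ne']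
            ring
          rw [Finset.sum_congr rfl h5, Finset.sum_add_distrib, Finset.sum_sub_distrib,
            ← Finset.sum_mul, hp1, one_mul]
        rw [h4]
        refine (jensen_log T p q hp hq hp1).trans ?_
        refine Real.log_le_log (Finset.sum_pos hq (hS.image _)) ?_
        have h6 : (S.image (res π A)).card =
            ∑ y ∈ T, ((S.image (res π A)).filter fun g => g a = some y).card := by
          refine (Finset.card_eq_sum_card_fiberwise (f := fun g => g a)
            (t := T.image some) ?_).trans ?_
          · intro g hg
            obtain ⟨x, hx, rfl⟩ := Finset.mem_image.1 hg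
            simp only [res, haA, if_true]
            exact Finset.mem_coe.2 (Finset.mem_image_of_mem _ (Finset.mem_image_of_mem _ hx))
          · rw [Finset.sum_image (fun x _ y _ h => Option.some.inj h)]
        simp only [q]
        rw [h6]
        push_cast
        refine Finset.sum_le_sum fun y hy => ?_
        have h7 : (Sl y).image (res π (A.erase a)) =
            (((S.image (res π A)).filter fun g => g a = some y).image
              fun g m => if m = a then none else g m) := by
          ext g
          simp only [Finset.mem_image, Finset.mem_filter, Sl]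
          constructor
          · rintro ⟨x, ⟨hx, hxy⟩, rfl⟩
            refine ⟨res π A x, ⟨⟨x, hx, rfl⟩, by simp [res, haA, hxy]⟩, ?_⟩
            funext m
            by_cases hm : m = a
            · simp [res, hm]
            · simp [res, hm]
          · rintro ⟨g', ⟨⟨x, hx, rfl⟩, hg'⟩, rfl⟩
            simp only [res, haA, if_true, Option.some.injEq] at hg'
            refine ⟨x, ⟨hx, hg'⟩, ?_⟩
            funext m
            by_cases hm : m = a
            · simp [res, hm]
            · simp [res, hm]
        rw [h7]
        exact_mod_cast Finset.card_image_le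
      · have hA' : A ⊆ B := fun m hm => by
          rcases Finset.mem_insert.1 (hA hm) with h | h
          · exact absurd (h ▸ hm) haA
          · exact h
        refine (key A hA').trans ?_
        have h8 : ∑ y ∈ T, p y * Real.log ((Sl y).image (res π A)).card ≤
            ∑ y ∈ T, p y * Real.log (S.image (res π A)).card := by
          refine Finset.sum_le_sum fun y hy => mul_le_mul_of_nonneg_left ?_ (hp y hy).le
          refine Real.log_le_log (by exact_mod_cast ((hSlne y hy).image _).card_pos) ?_
          exact_mod_cast Finset.card_le_card (Finset.image_subset_image (Finset.filter_subset _ _))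
        rw [← Finset.sum_mul, hp1, one_mul] at h8
        exact h8

end Pool.Agent.H86.RT
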