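import Pool.Agent.H86.RT.RankTrace
import Pool.Agent.H86.RT.Weights

set_option autoImplicit false

/-!
# A lattice with few separating elements and many elements has a rare one

`L` a finite meet-semilattice, `j m`, `m ∈ M`, elements such that `x ↦ (x ⊓ j m)` is injective.  If
every `j m` is below at least half of the elements then `|L| ≤ 2 ^ (r (2 r + 1))`, `r = |M|`.
-/

namespace Pool.Agent.H86.RT

open Finset

variable {L M : Type*} [SemilatticeInf L] [Fintype L] [Fintype M]

open Classical in
/-- The set of `m` with `j m ≤ x`. -/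
noncomputable def T (j : M → L) (x : L) : Finset M := univ.filter fun m => j m ≤ x

open Classical in
/-- The class of all `x` with `T x = A`. -/
noncomputable def D (j : M → L) (A : Finset M) : Finset L := univ.filter fun x => T j x = A

omit [Fintype L] in
lemma mem_T {j : M → L} {x : L} {m : M} : m ∈ T j x ↔ j m ≤ x := by simp [T]

lemma mem_D {j : M → L} {x : L} {A : Finset M} : x ∈ D j A ↔ T j x = A := by simp [D]

open Classical in
/-- Step (2): the product of the two projections. -/
lemma card_mul_card_le (j : M → L) (A B : Finset M) :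
    ((D j A).image (res (fun m x => x ⊓ j m) B)).card *
      ((D j B).image (res (fun m x => x ⊓ j m) A)).card ≤ Fintype.card L := by
  rw [← Finset.card_product]
  have h1 : ∀ g ∈ (D j A).image (res (fun m x => x ⊓ j m) B), ∃ x ∈ D j A,
      res (fun m x => x ⊓ j m) B x = g := fun g hg => Finset.mem_image.1 hg
  have h2 : ∀ g ∈ (D j B).image (res (fun m x => x ⊓ j m) A), ∃ x ∈ D j B,
      res (fun m x => x ⊓ j m) A x = g := fun g hg => Finset.mem_image.1 hg
  by_cases hne : Nonempty L
  swap
  · rw [not_nonempty_iff] at hne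
    have : D j A = ∅ := Finset.eq_empty_of_isEmpty _
    simp [this]
  choose! a ha1 ha2 using h1
  choose! b hb1 hb2 using h2
  rw [← Finset.card_univ (α := L)]
  refine Finset.card_le_card_of_injOn (fun p => a p.1 ⊓ b p.2) (fun _ _ => Finset.mem_coe.2 (Finset.mem_univ _)) ?_
  rintro ⟨g, k⟩ hgk ⟨g', k'⟩ hgk' heq
  rw [Finset.mem_coe, Finset.mem_product] at hgk hgk'
  simp only at hgk hgk' heq
  have e1 : ∀ x ∈ D j A, ∀ y ∈ D j B, ∀ m ∈ B, x ⊓ y ⊓ j m = x ⊓ j m := by
    intro x _ y hy m hm
    have h : j m ≤ y := mem_T.1 ((mem_D.1 hy).symm ▸ hm)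
    rw [inf_assoc, inf_eq_right.2 h]
  have e2 : ∀ x ∈ D j A, ∀ y ∈ D j B, ∀ m ∈ A, x ⊓ y ⊓ j m = y ⊓ j m := by
    intro x hx y _ m hm
    have h : j m ≤ x := mem_T.1 ((mem_D.1 hx).symm ▸ hm)
    rw [inf_comm x y, inf_assoc, inf_eq_right.2 h]
  have f1 : g = g' := by
    rw [← ha2 g hgk.1, ← ha2 g' hgk'.1]
    funext m
    by_cases hm : m ∈ B
    · simp only [res, hm, if_true]
      rw [← e1 _ (ha1 g hgk.1) _ (hb1 k hgk.2) m hm, heq,
        e1 _ (ha1 g' hgk'.1) _ (hb1 k' hgk'.2) m hm]
    · simp [res, hm]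
  have f2 : k = k' := by
    rw [← hb2 k hgk.2, ← hb2 k' hgk'.2]
    funext m
    by_cases hm : m ∈ A
    · simp only [res, hm, if_true]
      rw [← e2 _ (ha1 g hgk.1) _ (hb1 k hgk.2) m hm, heq,
        e2 _ (ha1 g' hgk'.1) _ (hb1 k' hgk'.2) m hm]
    · simp [res, hm]
  rw [f1, f2]

open Classical in
/-- The entropy of the partition into classes is at most `r log 2`. -/
lemma sum_log_classes (j : M → L) [Nonempty L] :
    (Fintype.card L : ℝ) * (Real.log (Fintype.card L) - Fintype.card M * Real.log 2) ≤
      ∑ x : L, Real.log (D j (T j x)).card := by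
  set N : ℝ := (Fintype.card L : ℝ) with hN
  have hNpos : 0 < N := by
    rw [hN]; exact_mod_cast Fintype.card_pos
  have hD : ∀ x : L, (0 : ℝ) < (D j (T j x)).card := fun x => by
    exact_mod_cast Finset.card_pos.2 ⟨x, mem_D.2 rfl⟩
  have h := strictConcaveOn_log_Ioi.concaveOn.le_map_sum (t := (univ : Finset L))
    (w := fun _ => 1 / N) (p := fun x => N / (D j (T j x)).card)
    (fun _ _ => by positivity)
    (by rw [Finset.sum_const, Finset.card_univ, nsmul_eq_mul, ← hN]; field_simp)
    (fun x _ => Set.mem_Ioi.2 (div_pos hNpos (hD x)))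
  simp only [smul_eq_mul] at h
  have h1 : ∑ x : L, 1 / N * (N / (D j (T j x)).card) = ((univ : Finset L).image (T j)).card := by
    have h2 : ∀ x : L, 1 / N * (N / (D j (T j x)).card) = 1 / ((D j (T j x)).card : ℝ) := by
      intro x
      have := (hD x).ne'
      field_simp
    simp only [h2]
    rw [← Finset.sum_fiberwise_of_maps_to (s := (univ : Finset L)) (t := (univ : Finset L).image (T j))
      (g := T j) (fun x hx => Finset.mem_image_of_mem _ hx)]
    rw [Finset.card_eq_sum_ones]
    push_cast
    refine Finset.sum_congr rfl fun A hA => ?_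
    obtain ⟨x, -, rfl⟩ := Finset.mem_image.1 hA
    have h3 : ∀ y ∈ (univ : Finset L).filter (fun y => T j y = T j x),
        (1 : ℝ) / ((D j (T j y)).card : ℝ) = 1 / ((D j (T j x)).card : ℝ) := by
      intro y hy
      rw [(Finset.mem_filter.1 hy).2]
    rw [Finset.sum_congr rfl h3, Finset.sum_const, nsmul_eq_mul]
    change ((D j (T j x)).card : ℝ) * _ = 1
    have := (hD x).ne'
    field_simp
  rw [h1] at h
  have h4 : Real.log ((univ : Finset L).image (T j)).card ≤ Fintype.card M * Real.log 2 := by
    rw [← Real.log_pow]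
    refine Real.log_le_log ?_ ?_
    · exact_mod_cast (Finset.univ_nonempty.image _).card_pos
    · have := Finset.card_le_univ ((univ : Finset L).image (T j))
      rw [Fintype.card_finset] at this
      exact_mod_cast this
  have h5 : ∑ x : L, 1 / N * Real.log (N / (D j (T j x)).card) =
      Real.log N - 1 / N * ∑ x : L, Real.log (D j (T j x)).card := by
    rw [← Finset.mul_sum]
    have h6 : ∀ x : L, Real.log (N / (D j (T j x)).card) =
        Real.log N - Real.log (D j (T j x)).card := fun x =>
      Real.log_div hNpos.ne' (hD x).ne'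
    simp only [h6]
    rw [Finset.sum_sub_distrib, Finset.sum_const, Finset.card_univ, nsmul_eq_mul, ← hN]
    field_simp
  rw [h5] at h
  have h7 := h.trans h4
  have h8 : Real.log N - Fintype.card M * Real.log 2 ≤
      1 / N * ∑ x : L, Real.log (D j (T j x)).card := by linarith
  have h9 := mul_le_mul_of_nonneg_left h8 hNpos.le
  rw [← mul_assoc, mul_one_div_cancel hNpos.ne', one_mul] at h9
  exact h9

open Classical in
/-- **Main estimate.** -/
theorem card_le (j : M → L) (hj : ∀ x y : L, (∀ m, x ⊓ j m = y ⊓ j m) → x = y)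
    (hN : 2 ≤ Fintype.card L)
    (hu : ∀ m, Fintype.card L ≤ 2 * ((univ : Finset L).filter fun y => j m ≤ y).card) :
    Fintype.card L ≤ 2 ^ (Fintype.card M * (2 * Fintype.card M + 1)) := by
  have hne : Nonempty L := Fintype.card_pos_iff.1 (by omega)
  set π : M → L → L := fun m x => x ⊓ j m with hπ
  have hex : ∀ A : Finset M, (D j A).Nonempty → ∃ w : M → ℝ, (∀ m, 0 ≤ w m) ∧
      ∑ m ∈ (univ : Finset M), w m = Real.log (D j A).card ∧
      ∀ B ⊆ (univ : Finset M), ∑ m ∈ B, w m ≤ Real.log ((D j A).image (res π B)).card := by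
    intro A hA
    exact exists_weights π univ (D j A) hA
      (fun x _ y _ h => hj x y fun m => h m (Finset.mem_univ _))
  choose! W hW0 hW1 hW2 using hex
  have hDne : ∀ x : L, (D j (T j x)).Nonempty := fun x => ⟨x, mem_D.2 rfl⟩
  set lN : ℝ := Real.log (Fintype.card L) with hlN
  have hlN0 : 0 < lN := Real.log_pos (by exact_mod_cast hN)
  let w : L → M → ℝ := fun x m => W (T j x) m
  let b : L → M → ℝ := fun x m => if m ∈ T j x then 1 else 0
  have hwb : ∀ x y : L, ∑ m, w x m * b y m = ∑ m ∈ T j y, W (T j x) m := by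
    intro x y
    simp only [w, b, mul_ite, mul_one, mul_zero]
    rw [Finset.sum_ite_mem, Finset.univ_inter]
  have hw0 : ∀ x y : L, 0 ≤ ∑ m, w x m * b y m := by
    intro x y
    rw [hwb]
    exact Finset.sum_nonneg fun m _ => hW0 _ (hDne x) m
  have hM : ∀ x y : L, ∑ m, w x m * b y m + ∑ m, w y m * b x m ≤ lN := by
    intro x y
    rw [hwb, hwb]
    have h1 := hW2 _ (hDne x) (T j y) (Finset.subset_univ _)
    have h2 := hW2 _ (hDne y) (T j x) (Finset.subset_univ _)
    have h3 := card_mul_card_le j (T j x) (T j y)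
    have p1 : (0 : ℝ) < ((D j (T j x)).image (res π (T j y))).card := by
      exact_mod_cast ((hDne x).image _).card_pos
    have p2 : (0 : ℝ) < ((D j (T j y)).image (res π (T j x))).card := by
      exact_mod_cast ((hDne y).image _).card_pos
    refine (add_le_add h1 h2).trans ?_
    rw [← Real.log_mul p1.ne' p2.ne']
    exact Real.log_le_log (mul_pos p1 p2) (by exact_mod_cast h3)
  have hdiag : ∀ x : L, ∑ m, w x m * b x m = 0 := by
    intro x
    refine le_antisymm ?_ (hw0 x x)
    rw [hwb]
    refine (hW2 _ (hDne x) (T j x) (Finset.subset_univ _)).trans (le_of_eq ?_)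
    have h1 : (D j (T j x)).image (res π (T j x)) = {res π (T j x) x} := by
      refine Finset.eq_singleton_iff_unique_mem.2
        ⟨Finset.mem_image_of_mem _ (mem_D.2 rfl), ?_⟩
      intro g hg
      obtain ⟨y, hy, rfl⟩ := Finset.mem_image.1 hg
      funext m
      by_cases hm : m ∈ T j x
      · simp only [res, hm, if_true, hπ]
        rw [inf_eq_right.2 (mem_T.1 hm), inf_eq_right.2 (mem_T.1 ((mem_D.1 hy).symm ▸ hm))]
      · simp [res, hm]
    rw [h1]
    simp
  have hrt := rank_trace_low w b lN
  have hl : ∑ x : L, (lN - (∑ m, w x m * b x m + ∑ m, w x m * b x m)) =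
      Fintype.card L * lN := by
    simp only [hdiag, add_zero, sub_zero]
    rw [Finset.sum_const, Finset.card_univ, nsmul_eq_mul]
  rw [hl] at hrt
  -- entries in [0, lN]
  have hP2 : ∑ x : L, ∑ y : L, (lN - (∑ m, w x m * b y m + ∑ m, w y m * b x m)) ^ 2 ≤
      lN * ∑ x : L, ∑ y : L, (lN - (∑ m, w x m * b y m + ∑ m, w y m * b x m)) := by
    rw [Finset.mul_sum]
    refine Finset.sum_le_sum fun x _ => ?_
    rw [Finset.mul_sum]
    refine Finset.sum_le_sum fun y _ => ?_
    have h1 := hM x y
    have h2 := hw0 x y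
    have h3 := hw0 y x
    rw [pow_two]
    exact mul_le_mul_of_nonneg_right (by linarith) (by linarith)
  have hsumw : ∀ x : L, ∑ m, w x m = Real.log (D j (T j x)).card := fun x => hW1 _ (hDne x)
  set N : ℝ := (Fintype.card L : ℝ) with hNdef
  have hNpos : 0 < N := by
    rw [hNdef]; exact_mod_cast Fintype.card_pos
  have hcol : ∀ x : L, N * Real.log (D j (T j x)).card ≤ 2 * ∑ y : L, ∑ m, w x m * b y m := by
    intro x
    rw [← hsumw x, Finset.mul_sum, Finset.sum_comm, Finset.mul_sum]
    refine Finset.sum_le_sum fun m _ => ?_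
    rw [← Finset.mul_sum]
    have h1 : ∑ y : L, b y m = ((univ : Finset L).filter fun y => j m ≤ y).card := by
      simp only [b, mem_T]
      rw [Finset.sum_boole]
    rw [h1]
    have h2 : N ≤ 2 * (((univ : Finset L).filter fun y => j m ≤ y).card : ℝ) := by
      rw [hNdef]
      exact_mod_cast hu m
    have h3 : 0 ≤ w x m := hW0 _ (hDne x) m
    nlinarith
  have hS := sum_log_classes j
  rw [← hNdef] at hS
  have hsum : ∑ x : L, ∑ y : L, (lN - (∑ m, w x m * b y m + ∑ m, w y m * b x m)) ≤
      N ^ 2 * (Fintype.card M * Real.log 2) := by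
    have h1 : ∑ x : L, ∑ y : L, (lN - (∑ m, w x m * b y m + ∑ m, w y m * b x m)) =
        N ^ 2 * lN - 2 * ∑ x : L, ∑ y : L, ∑ m, w x m * b y m := by
      simp only [Finset.sum_sub_distrib, Finset.sum_add_distrib, Finset.sum_const,
        Finset.card_univ, nsmul_eq_mul]
      rw [Finset.sum_comm (f := fun x y => ∑ m, w y m * b x m)]
      rw [← hNdef]
      ring
    rw [h1]
    have h2 : N * ∑ x : L, Real.log (D j (T j x)).card ≤
        2 * ∑ x : L, ∑ y : L, ∑ m, w x m * b y m := by
      rw [Finset.mul_sum, Finset.mul_sum]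
      exact Finset.sum_le_sum fun x _ => hcol x
    have h3 := mul_le_mul_of_nonneg_left hS hNpos.le
    have h4 : Real.log N = lN := rfl
    rw [h4] at h3
    nlinarith
  have hfin : (N * lN) ^ 2 ≤ (2 * Fintype.card M + 1) *
      (lN * (N ^ 2 * (Fintype.card M * Real.log 2))) := by
    refine hrt.trans (mul_le_mul_of_nonneg_left (hP2.trans ?_) (by positivity))
    exact mul_le_mul_of_nonneg_left hsum hlN0.le
  have hfin2 : lN ≤ (2 * Fintype.card M + 1) * (Fintype.card M * Real.log 2) := by
    have h1 : (N ^ 2 * lN) * lN ≤ (N ^ 2 * lN) *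
        ((2 * Fintype.card M + 1) * (Fintype.card M * Real.log 2)) := by
      nlinarith [hfin]
    exact le_of_mul_le_mul_left h1 (by positivity)
  have h10 : Real.log N ≤ Real.log ((2 : ℝ) ^ (Fintype.card M * (2 * Fintype.card M + 1))) := by
    rw [Real.log_pow]
    push_cast
    have : Real.log N = lN := rfl
    rw [this]
    nlinarith [hfin2]
  have h11 := (Real.log_le_log_iff hNpos (by positivity)).1 h10
  rw [hNdef] at h11
  exact_mod_cast h11

end Pool.Agent.H86.RT
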