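import Pool.Agent.H86.RT.Main

set_option autoImplicit false

/-!
# The robust form: elements (not necessarily join-irreducible) which are nearly frequent
-/

namespace Pool.Agent.H86.RT

open Finset

variable {L M : Type*} [SemilatticeInf L] [Fintype L] [Fintype M]

open Classical in
/-- **Robust estimate.** -/
theorem card_le_near (j : M → L) (hj : ∀ x y : L, (∀ m, x ⊓ j m = y ⊓ j m) → x = y)
    (hN : 2 ≤ Fintype.card L)
    (hu : ∀ m, (1 - 1 / (2 * (2 * (Fintype.card M : ℝ) + 1))) * (Fintype.card L : ℝ) ≤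
      2 * (((univ : Finset L).filter fun y => j m ≤ y).card : ℝ)) :
    Fintype.card L ≤ 2 ^ (2 * (Fintype.card M * (2 * Fintype.card M + 1))) := by
  have hne : Nonempty L := Fintype.card_pos_iff.1 (by omega)
  set π : M → L → L := fun m x => x ⊓ j m with hπ
  have hex : ∀ A : Finset M, (D j A).Nonempty → ∃ w : M → ℝ, (∀ m, 0 ≤ w m) ∧
      ∑ m ∈ (univ : Finset M), w m = Real.log (D j A).card ∧
      ∀ B ⊆ (univ : Finset M), ∑ m ∈ B, w m ≤ Real.log ((D j A).image (res π B)).card := by
    intro A hA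
    exact exists_weights π univ (D j A) hA
      (fun x _ y _ h => hj x y fun m => h m (Finset.mem_univ _))
  choose! W hW0 hW1 hW2 using hex
  have hDne : ∀ x : L, (D j (T j x)).Nonempty := fun x => ⟨x, mem_D.2 rfl⟩
  set lN : ℝ := Real.log (Fintype.card L) with hlN
  have hlN0 : 0 < lN := Real.log_pos (by exact_mod_cast hN)
  let w : L → M → ℝ := fun x m => W (T j x) m
  let b : L → M → ℝ := fun x m => if m ∈ T j x then 1 else 0
  have hwb : ∀ x y : L, ∑ m, w x m * b y m = ∑ m ∈ T j y, W (T j x) m := by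
    intro x y
    simp only [w, b, mul_ite, mul_one, mul_zero]
    rw [Finset.sum_ite_mem, Finset.univ_inter]
  have hw0 : ∀ x y : L, 0 ≤ ∑ m, w x m * b y m := by
    intro x y
    rw [hwb]
    exact Finset.sum_nonneg fun m _ => hW0 _ (hDne x) m
  have hM : ∀ x y : L, ∑ m, w x m * b y m + ∑ m, w y m * b x m ≤ lN := by
    intro x y
    rw [hwb, hwb]
    have h1 := hW2 _ (hDne x) (T j y) (Finset.subset_univ _)
    have h2 := hW2 _ (hDne y) (T j x) (Finset.subset_univ _)
    have h3 := card_mul_card_le j (T j x) (T j y)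
    have p1 : (0 : ℝ) < ((D j (T j x)).image (res π (T j y))).card := by
      exact_mod_cast ((hDne x).image _).card_pos
    have p2 : (0 : ℝ) < ((D j (T j y)).image (res π (T j x))).card := by
      exact_mod_cast ((hDne y).image _).card_pos
    refine (add_le_add h1 h2).trans ?_
    rw [← Real.log_mul p1.ne' p2.ne']
    exact Real.log_le_log (mul_pos p1 p2) (by exact_mod_cast h3)
  have hdiag : ∀ x : L, ∑ m, w x m * b x m = 0 := by
    intro x
    refine le_antisymm ?_ (hw0 x x)
    rw [hwb]
    refine (hW2 _ (hDne x) (T j x) (Finset.subset_univ _)).trans (le_of_eq ?_)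
    have h1 : (D j (T j x)).image (res π (T j x)) = {res π (T j x) x} := by
      refine Finset.eq_singleton_iff_unique_mem.2
        ⟨Finset.mem_image_of_mem _ (mem_D.2 rfl), ?_⟩
      intro g hg
      obtain ⟨y, hy, rfl⟩ := Finset.mem_image.1 hg
      funext m
      by_cases hm : m ∈ T j x
      · simp only [res, hm, if_true, hπ]
        rw [inf_eq_right.2 (mem_T.1 hm), inf_eq_right.2 (mem_T.1 ((mem_D.1 hy).symm ▸ hm))]
      · simp [res, hm]
    rw [h1]
    simp
  have hrt := rank_trace_low w b lN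
  have hl : ∑ x : L, (lN - (∑ m, w x m * b x m + ∑ m, w x m * b x m)) =
      Fintype.card L * lN := by
    simp only [hdiag, add_zero, sub_zero]
    rw [Finset.sum_const, Finset.card_univ, nsmul_eq_mul]
  rw [hl] at hrt
  have hP2 : ∑ x : L, ∑ y : L, (lN - (∑ m, w x m * b y m + ∑ m, w y m * b x m)) ^ 2 ≤
      lN * ∑ x : L, ∑ y : L, (lN - (∑ m, w x m * b y m + ∑ m, w y m * b x m)) := by
    rw [Finset.mul_sum]
    refine Finset.sum_le_sum fun x _ => ?_
    rw [Finset.mul_sum]
    refine Finset.sum_le_sum fun y _ => ?_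
    have h1 := hM x y
    have h2 := hw0 x y
    have h3 := hw0 y x
    rw [pow_two]
    exact mul_le_mul_of_nonneg_right (by linarith) (by linarith)
  have hsumw : ∀ x : L, ∑ m, w x m = Real.log (D j (T j x)).card := fun x => hW1 _ (hDne x)
  set N : ℝ := (Fintype.card L : ℝ) with hNdef
  set R : ℝ := (Fintype.card M : ℝ) with hRdef
  have hR0 : 0 ≤ R := by rw [hRdef]; positivity
  set η : ℝ := 1 / (2 * (2 * R + 1)) with hη
  have hη0 : 0 < η := by rw [hη]; positivity
  have hη1 : η ≤ 1 := by
    rw [hη, div_le_one (by positivity)]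
    linarith
  have hNpos : 0 < N := by
    rw [hNdef]; exact_mod_cast Fintype.card_pos
  have hcol : ∀ x : L, (1 - η) * N * Real.log (D j (T j x)).card ≤
      2 * ∑ y : L, ∑ m, w x m * b y m := by
    intro x
    rw [← hsumw x, Finset.mul_sum, Finset.sum_comm, Finset.mul_sum]
    refine Finset.sum_le_sum fun m _ => ?_
    rw [← Finset.mul_sum]
    have h1 : ∑ y : L, b y m = ((univ : Finset L).filter fun y => j m ≤ y).card := by
      simp only [b, mem_T]
      rw [Finset.sum_boole]
    rw [h1]
    have h2 := hu m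
    have h3 : 0 ≤ w x m := hW0 _ (hDne x) m
    nlinarith
  have hS := sum_log_classes j
  rw [← hNdef, ← hRdef] at hS
  have hlogN : Real.log N = lN := rfl
  rw [hlogN] at hS
  have hlog2 : 0 < Real.log 2 := Real.log_pos (by norm_num)
  have hsum : ∑ x : L, ∑ y : L, (lN - (∑ m, w x m * b y m + ∑ m, w y m * b x m)) ≤
      N ^ 2 * (η * lN + R * Real.log 2) := by
    have h1 : ∑ x : L, ∑ y : L, (lN - (∑ m, w x m * b y m + ∑ m, w y m * b x m)) =
        N ^ 2 * lN - 2 * ∑ x : L, ∑ y : L, ∑ m, w x m * b y m := by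
      simp only [Finset.sum_sub_distrib, Finset.sum_add_distrib, Finset.sum_const,
        Finset.card_univ, nsmul_eq_mul]
      rw [Finset.sum_comm (f := fun x y => ∑ m, w y m * b x m)]
      rw [← hNdef]
      ring
    rw [h1]
    have h2 : (1 - η) * N * ∑ x : L, Real.log (D j (T j x)).card ≤
        2 * ∑ x : L, ∑ y : L, ∑ m, w x m * b y m := by
      rw [Finset.mul_sum, Finset.mul_sum]
      exact Finset.sum_le_sum fun x _ => hcol x
    have h3 := mul_le_mul_of_nonneg_left hS (mul_nonneg (sub_nonneg.2 hη1) hNpos.le)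
    have h4 : 0 ≤ η * (N ^ 2 * (R * Real.log 2)) := by positivity
    nlinarith
  have hfin : (N * lN) ^ 2 ≤ (2 * R + 1) *
      (lN * (N ^ 2 * (η * lN + R * Real.log 2))) := by
    refine hrt.trans (mul_le_mul_of_nonneg_left (hP2.trans ?_) (by positivity))
    exact mul_le_mul_of_nonneg_left hsum hlN0.le
  have hfin2 : lN ≤ (2 * R + 1) * (η * lN + R * Real.log 2) := by
    have h1 : (N ^ 2 * lN) * lN ≤ (N ^ 2 * lN) *
        ((2 * R + 1) * (η * lN + R * Real.log 2)) := by
      nlinarith [hfin]
    exact le_of_mul_le_mul_left h1 (by positivity)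
  have hfin3 : (2 * R + 1) * η = 1 / 2 := by
    rw [hη]
    field_simp
  have hfin4 : lN ≤ 2 * (R * (2 * R + 1)) * Real.log 2 := by
    have : (2 * R + 1) * (η * lN + R * Real.log 2) =
        (2 * R + 1) * η * lN + (2 * R + 1) * R * Real.log 2 := by ring
    rw [this, hfin3] at hfin2
    linarith
  have h10 : Real.log N ≤
      Real.log ((2 : ℝ) ^ (2 * (Fintype.card M * (2 * Fintype.card M + 1)))) := by
    rw [Real.log_pow]
    push_cast
    rw [hlogN, ← hRdef]
    linarith
  have h11 := (Real.log_le_log_iff hNpos (by positivity)).1 h10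
  rw [hNdef] at h11
  exact_mod_cast h11

/-- In a finite lattice `z ≤ w` holds as soon as every join-irreducible below `z` is below `w`. -/
lemma le_of_forall_supIrred {L : Type*} [Lattice L] [Finite L] {z w : L}
    (h : ∀ c : L, SupIrred c → c ≤ z → c ≤ w) : z ≤ w := by
  by_contra hzw
  obtain ⟨c, hc⟩ := (Set.toFinite {c : L | c ≤ z ∧ ¬ c ≤ w}).exists_minimal ⟨z, le_rfl, hzw⟩
  have hbelow : ∀ e : L, e < c → e ≤ w := by
    intro e he
    by_contra hew
    exact absurd (hc.le_of_le ⟨he.le.trans hc.prop.1, hew⟩ he.le) (not_le_of_gt he)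
  refine hc.prop.2 (h c ⟨fun hmin => hc.prop.2 ((hmin inf_le_left).trans inf_le_right), ?_⟩
    hc.prop.1)
  intro b e hbe
  by_contra hne
  have hb : b < c := lt_of_le_of_ne (hbe ▸ le_sup_left) (fun h' => hne (Or.inl h'))
  have he : e < c := lt_of_le_of_ne (hbe ▸ le_sup_right) (fun h' => hne (Or.inr h'))
  exact hc.prop.2 (hbe ▸ sup_le (hbelow b hb) (hbelow e he))

/-- The robust form for lattices. -/
theorem near_half {L : Type*} [Lattice L] [Finite L] (r : ℕ) (z : Fin r → L)
    (hz : ∀ a : L, SupIrred a → ∃ m, a ≤ z m)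
    (h : ∀ m, (1 - 1 / (2 * (2 * (r : ℝ) + 1))) * (Nat.card L : ℝ) ≤
      2 * (Nat.card {x : L // z m ≤ x} : ℝ)) :
    Nat.card L ≤ 2 ^ (2 * (r * (2 * r + 1))) := by
  classical
  have := Fintype.ofFinite L
  rw [Nat.card_eq_fintype_card]
  rcases Nat.lt_or_ge (Fintype.card L) 2 with hlt | hge
  · exact (Nat.lt_succ_iff.1 hlt).trans (Nat.one_le_two_pow)
  have hle : ∀ x y : L, (∀ m, x ⊓ z m = y ⊓ z m) → x ≤ y := by
    intro x y h
    refine le_of_forall_supIrred (fun c hc hcx => ?_)
    obtain ⟨m, hm⟩ := hz c hc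
    have h1 : c ≤ x ⊓ z m := le_inf hcx hm
    rw [h m] at h1
    exact h1.trans inf_le_left
  have key := card_le_near z (fun x y h => le_antisymm (hle x y h) (hle y x fun m => (h m).symm))
    hge (fun m => by
      have h1 := h m
      rw [Nat.card_eq_fintype_card, Nat.card_eq_fintype_card, Fintype.card_subtype] at h1
      rw [Fintype.card_fin]
      convert h1 using 5)
  rw [Fintype.card_fin] at key
  exact key

end Pool.Agent.H86.RT
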