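import Mathlib

set_option autoImplicit false

/-!
# Trace, rank and the sum of the squares of the entries of a real symmetric matrix

`(tr P)² ≤ rank P · ∑ P x y²`, and the case `P x y = c - (∑ w x m * b y m + ∑ w y m * b x m)` with
`m` in a set of `r` elements, where the rank is at most `2 r + 1`.
-/

namespace Pool.Agent.H86.RT

open Matrix Finset Unitary

variable {X : Type*} [Fintype X] [DecidableEq X]

lemma trace_mul_self (P : Matrix X X ℝ) (hP : P.IsHermitian) :
    (P * P).trace = ∑ i, hP.eigenvalues i ^ 2 := by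
  have h := hP.spectral_theorem
  have h2 : P * P = conjStarAlgAut ℝ _ hP.eigenvectorUnitary
      (diagonal (RCLike.ofReal ∘ hP.eigenvalues) * diagonal (RCLike.ofReal ∘ hP.eigenvalues)) := by
    rw [map_mul, ← h]
  rw [h2, conjStarAlgAut_apply, Matrix.trace_mul_comm, ← mul_assoc]
  simp [Matrix.trace, Matrix.diagonal_mul_diagonal, pow_two]

omit [DecidableEq X] in
lemma trace_mul_self_eq (P : Matrix X X ℝ) (hP : P.IsHermitian) :
    (P * P).trace = ∑ x, ∑ y, P x y ^ 2 := by
  simp only [Matrix.trace, Matrix.diag_apply, Matrix.mul_apply]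
  refine Finset.sum_congr rfl fun x _ => Finset.sum_congr rfl fun y _ => ?_
  have h : P y x = P x y := by
    have := hP.apply x y
    simpa using this
  rw [h, pow_two]

/-- `(tr P)² ≤ rank P · ∑ P x y²` for a real symmetric matrix. -/
theorem rank_trace (P : Matrix X X ℝ) (hP : P.IsHermitian) :
    P.trace ^ 2 ≤ P.rank * ∑ x, ∑ y, P x y ^ 2 := by
  classical
  rw [← trace_mul_self_eq P hP, trace_mul_self P hP, hP.trace_eq_sum_eigenvalues,
    hP.rank_eq_card_non_zero_eigs]
  simp only [RCLike.ofReal_real_eq_id, id_eq]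
  have h1 : ∑ i, hP.eigenvalues i = ∑ i ∈ univ.filter (fun i => hP.eigenvalues i ≠ 0),
      hP.eigenvalues i := by
    rw [Finset.sum_filter_ne_zero]
  have h2 : ∑ i, hP.eigenvalues i ^ 2 = ∑ i ∈ univ.filter (fun i => hP.eigenvalues i ≠ 0),
      hP.eigenvalues i ^ 2 := by
    symm
    refine Finset.sum_subset (Finset.filter_subset _ _) ?_
    intro i _ hi
    simp only [mem_filter, mem_univ, true_and, not_not] at hi
    rw [hi]; norm_num
  rw [h1, h2, Fintype.card_subtype]
  exact sq_sum_le_card_mul_sum_sq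

/-- The case of rank at most `2 r + 1`. -/
theorem rank_trace_low {M : Type*} [Fintype M] (w b : X → M → ℝ) (c : ℝ) :
    (∑ x, (c - (∑ m, w x m * b x m + ∑ m, w x m * b x m))) ^ 2 ≤
      (2 * Fintype.card M + 1) *
        ∑ x, ∑ y, (c - (∑ m, w x m * b y m + ∑ m, w y m * b x m)) ^ 2 := by
  classical
  set P : Matrix X X ℝ := Matrix.of fun x y => c - (∑ m, w x m * b y m + ∑ m, w y m * b x m) with hPdef
  have hP : P.IsHermitian := by
    ext x y
    simp only [hPdef, Matrix.conjTranspose_apply, Matrix.of_apply, star_trivial]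
    ring
  have hrank : P.rank ≤ 2 * Fintype.card M + 1 := by
    let U : Matrix X (M ⊕ M ⊕ Unit) ℝ := Matrix.of fun x k =>
      match k with
      | Sum.inl m => - w x m
      | Sum.inr (Sum.inl m) => - b x m
      | Sum.inr (Sum.inr _) => c
    let V : Matrix (M ⊕ M ⊕ Unit) X ℝ := Matrix.of fun k y =>
      match k with
      | Sum.inl m => b y m
      | Sum.inr (Sum.inl m) => w y m
      | Sum.inr (Sum.inr _) => 1
    have hUV : P = U * V := by
      ext x y
      simp only [hPdef, Matrix.of_apply, Matrix.mul_apply, Fintype.sum_sum_type, U, V]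
      simp only [Finset.univ_unique, Finset.sum_singleton, neg_mul, Finset.sum_neg_distrib]
      have : ∑ m, b x m * w y m = ∑ m, w y m * b x m :=
        Finset.sum_congr rfl fun m _ => mul_comm _ _
      rw [this]
      ring
    rw [hUV]
    refine (Matrix.rank_mul_le_left U V).trans ((Matrix.rank_le_card_width U).trans ?_)
    simp only [Fintype.card_sum, Fintype.card_unit]
    omega
  have h := rank_trace P hP
  have h3 : P.trace = ∑ x, (c - (∑ m, w x m * b x m + ∑ m, w x m * b x m)) := by
    simp [Matrix.trace, hPdef]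
  have h4 : ∑ x, ∑ y, P x y ^ 2 =
      ∑ x, ∑ y, (c - (∑ m, w x m * b y m + ∑ m, w y m * b x m)) ^ 2 := by
    simp [hPdef]
  rw [h3, h4] at h
  refine h.trans ?_
  have h5 : (P.rank : ℝ) ≤ 2 * Fintype.card M + 1 := by exact_mod_cast hrank
  exact mul_le_mul_of_nonneg_right h5
    (Finset.sum_nonneg fun x _ => Finset.sum_nonneg fun y _ => sq_nonneg _)

end Pool.Agent.H86.RT
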